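import Pool.Agent.H48.S6.RplA
import Pool.Agent.H97.S6.H2R
import Pool.Agent.H35.K2S.WS

/-!
# Activity of the base velocity in sub-blocks of a context, and the time

For a label `b` (a context) which is visible from the exact point and the base velocity, the blocks
of `⌊η X⌋` digits of the base velocity are active, given the previous digits and the label, on all
events of constant probability.
-/

set_option autoImplicit false

namespace Pool.S6C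

open Finset Real
open Pool.Agent.H49.Ent Pool.Agent.H32.Dense Pool.STK Pool.KA Pool.KSAT Pool.K2S Pool.PB Pool.KS6
  Pool.Sel51

/-- The law on an intersection. -/
theorem cond_and14 {Ω : Type} [Fintype Ω] (p : Ω → ℝ) {A E : Ω → Prop} (hA : Pe p A ≠ 0) :
    Pool.Agent.H49.Ent.cond (Pool.Agent.H49.Ent.cond p A True) E True =
      Pool.Agent.H49.Ent.cond p (fun ω => A ω ∧ E ω) True := by
  classical
  have key : ∀ (q : Ω → ℝ) (B : Ω → Prop) (ω : Ω), Pool.Agent.H49.Ent.cond q B True ω =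
      if B ω then q ω / Pe q B else 0 := by
    intro q B ω
    unfold Pool.Agent.H49.Ent.cond
    by_cases h : B ω
    · simp only [h, if_true]
    · simp [h]
  funext ω
  rw [key, key, key, Pool.K2S.Pe_cond E]
  by_cases h1 : A ω
  · by_cases h2 : E ω
    · rw [if_pos h2, if_pos h1, if_pos (⟨h1, h2⟩ : A ω ∧ E ω), div_div_div_cancel_right₀ hA]
    · rw [if_neg h2, if_neg (fun h : A ω ∧ E ω => h2 h.2)]
  · rw [if_neg h1, if_neg (fun h : A ω ∧ E ω => h1 h.1), zero_div, ite_self]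

/-- The first `n` digits of the base velocity in a context. -/
theorem dg_om_D {J : ℕ} (F : Fam 3 J) (σ : Fin 3 → Fin 3) (a s t : F.Ω → ℝ) {q V H X n : ℕ}
    (hn : n ≤ X) (ω : F.Ω) : Uni.dg n (Pool.S6N.om F σ q V H X a s t 0) ω =
      F.D (q + n) ω (σ 0) - 2 ^ n * F.D q ω (σ 0) := by
  obtain ⟨k, rfl⟩ := Nat.exists_eq_add_of_le hn
  have e0 : F.md (Pool.S6N.cv q V H) (Pool.S6N.fr σ a s t) ω 0 =
      Int.fract ((2 : ℝ) ^ q * F.d ω (σ 0)) := by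
    change Int.fract ((2 : ℝ) ^ q * mco (tfr σ (a ω) (s ω) (t ω)) (F.d ω) 0) = _
    rw [Box.mco_tfr0]
  change ⌊(2 : ℝ) ^ n * ((⌊(2 : ℝ) ^ (n + k) *
    F.md (Pool.S6N.cv q V H) (Pool.S6N.fr σ a s t) ω 0⌋ : ℝ) / 2 ^ (n + k))⌋ =
    ⌊(2 : ℝ) ^ (q + n) * F.d ω (σ 0)⌋ - 2 ^ n * ⌊(2 : ℝ) ^ q * F.d ω (σ 0)⌋
  rw [e0]
  have e1 : ∀ z : ℤ, (2 : ℝ) ^ n * ((z : ℝ) / 2 ^ (n + k)) = (z : ℝ) / ((2 ^ k : ℕ) : ℝ) := by
    intro z
    push_cast
    rw [pow_add]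
    field_simp
  rw [e1, Int.floor_div_natCast, Int.floor_intCast, ← Int.floor_div_natCast]
  have e2 : (2 : ℝ) ^ (n + k) * Int.fract ((2 : ℝ) ^ q * F.d ω (σ 0)) / ((2 ^ k : ℕ) : ℝ) =
      (2 : ℝ) ^ (q + n) * F.d ω (σ 0) -
        ((2 ^ n * ⌊(2 : ℝ) ^ q * F.d ω (σ 0)⌋ : ℤ) : ℝ) := by
    unfold Int.fract
    push_cast
    rw [pow_add, pow_add]
    field_simp
  rw [e2, Int.floor_sub_intCast]

/-- A block of digits of the base velocity, given the previous digits and a visible label. -/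
theorem CH_om_ge {J : ℕ} (F : Fam 3 J) {p : F.Ω → ℝ} (hp : IsLaw p) (σ : Fin 3 → Fin 3)
    (a s t : F.Ω → ℝ) {q V H X n n' : ℕ} (hn : n ≤ n') (hX : n' ≤ X) {T : Type} (b : F.Ω → T)
    {K : ℝ} (hb : CH p b (Pool.K2S.ptq F (σ 0) q) ≤ K) :
    CH p (fun ω => F.D (q + n') ω (σ 0)) (fun ω => (F.D (q + n) ω (σ 0), Fam.pt F ω)) - K ≤
      CH p (Uni.dg n' (Pool.S6N.om F σ q V H X a s t 0))
        (fun ω => (Uni.dg n (Pool.S6N.om F σ q V H X a s t 0) ω, b ω)) := by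
  have h0 := hp.nonneg
  -- the previous digits of the velocity
  have hDq : ∀ ω ω' : F.Ω, F.D (q + n) ω (σ 0) = F.D (q + n) ω' (σ 0) →
      F.D q ω (σ 0) = F.D q ω' (σ 0) := fun ω ω' e => by
    rw [D_div F q n, D_div F q n, e]
  obtain ⟨Y, hY⟩ : ∃ Y : F.Ω → ℤ × T,
      Y = fun ω => (Uni.dg n (Pool.S6N.om F σ q V H X a s t 0) ω, b ω) := ⟨_, rfl⟩
  obtain ⟨Z, hZ⟩ : ∃ Z : F.Ω → ℤ × ((Fin 3 → ℤ) × (ℕ × F.ζ)),
      Z = fun ω => (F.D (q + n) ω (σ 0), Fam.pt F ω) := ⟨_, rfl⟩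
  rw [← hY, ← hZ]
  have h1 := CH_le_add h0 (fun ω => F.D (q + n') ω (σ 0)) Y Z
  -- the label
  have h2 : CH p Y Z ≤ K := by
    have h3 : CH p Y Z ≤ CH p b Z := by
      refine le_trans (CH_le_add h0 Y b Z) ?_
      have h4 : CH p Y (fun ω => (b ω, Z ω)) ≤ 0 := by
        refine le_of_eq (CH_eq_zero h0 fun ω ω' _ _ e => ?_)
        have e1 : b ω = b ω' := (Prod.ext_iff.mp e).1
        have e2 : Z ω = Z ω' := (Prod.ext_iff.mp e).2
        rw [hZ] at e2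
        have e3 : F.D (q + n) ω (σ 0) = F.D (q + n) ω' (σ 0) := (Prod.ext_iff.mp e2).1
        rw [hY]
        refine Prod.ext ?_ e1
        change Uni.dg n (Pool.S6N.om F σ q V H X a s t 0) ω =
          Uni.dg n (Pool.S6N.om F σ q V H X a s t 0) ω'
        rw [dg_om_D F σ a s t (hn.trans hX), dg_om_D F σ a s t (hn.trans hX), e3, hDq ω ω' e3]
      linarith
    refine h3.trans (le_trans ?_ hb)
    refine CH_mono_cond h0 fun ω ω' _ _ e => ?_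
    rw [hZ] at e
    have e1 : F.D (q + n) ω (σ 0) = F.D (q + n) ω' (σ 0) := (Prod.ext_iff.mp e).1
    have e2 : Fam.pt F ω = Fam.pt F ω' := (Prod.ext_iff.mp e).2
    exact Prod.ext e2 (hDq ω ω' e1)
  -- the block
  have h5 : CH p (fun ω => F.D (q + n') ω (σ 0)) (fun ω => (Y ω, Z ω)) ≤
      CH p (Uni.dg n' (Pool.S6N.om F σ q V H X a s t 0)) (fun ω => (Y ω, Z ω)) := by
    refine CH_mono_left h0 fun ω ω' _ _ e => ?_
    have e1 : Uni.dg n' (Pool.S6N.om F σ q V H X a s t 0) ω =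
        Uni.dg n' (Pool.S6N.om F σ q V H X a s t 0) ω' := (Prod.ext_iff.mp e).1
    have e2 : Z ω = Z ω' := (Prod.ext_iff.mp (Prod.ext_iff.mp e).2).2
    rw [hZ] at e2
    have e3 : F.D (q + n) ω (σ 0) = F.D (q + n) ω' (σ 0) := (Prod.ext_iff.mp e2).1
    rw [dg_om_D F σ a s t hX, dg_om_D F σ a s t hX, hDq ω ω' e3] at e1
    show F.D (q + n') ω (σ 0) = F.D (q + n') ω' (σ 0)
    linarith
  have h6 : CH p (Uni.dg n' (Pool.S6N.om F σ q V H X a s t 0)) (fun ω => (Y ω, Z ω)) ≤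
      CH p (Uni.dg n' (Pool.S6N.om F σ q V H X a s t 0)) Y :=
    CH_mono_cond h0 fun ω ω' _ _ e => (Prod.ext_iff.mp e).1
  linarith

/-- **Activity in sub-blocks and time on the local data**: the fields `act` and `time` of the
one-family data, with `ca = α / 4`, blocks of length `X ≥ x J / 2`, sub-blocks of length `⌊η X⌋`,
for every label `b` which is visible up to `Kv`, at distance at most `C x J` from `(P - g) J`. -/
theorem act_om {S : PCl 3} {a R h₁ : ℝ} {i₀ : Fin 3} {c s₂ : ℝ} {r : ℝ → ℝ} {D : Set ℝ}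
    {σ : ℝ → Row} (hC : Cs S a R h₁ i₀ c s₂ r D σ) {act : ℚ → ℝ} {K : Set ℝ} {W : ℝ → ℝ}
    {v₁ t : ℚ} {e₁ Q₀ P g v₀ v ρ a₀ α : ℝ}
    (hL : Loc S i₀ c s₂ r D σ act K W v₁ t e₁ Q₀ P g v₀ v ρ a₀ α) {η ϖ C lm : ℝ} (Kv : ℝ)
    (hη : 0 < η) (hϖ : 0 < ϖ) (hC0 : 0 < C) (hlm : 0 < lm) :
    ∃ δ : ℝ, 0 < δ ∧ ∀ x : ℝ, 0 < x → x ≤ δ → Clp S (fun J F A => ∀ X : ℕ, x / 2 * J ≤ X →
      ((J : ℝ) * Real.log 2 - lm * X ≤
        CH (Pool.Agent.H49.Ent.cond F.p A True) F.T (fun ω => (F.l ω, F.Z ω))) ∧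
      ∀ (sg : Fin 3 → Fin 3) (q V H : ℕ) (a s t : F.Ω → ℝ) (T : Type) (b : F.Ω → T),
      sg 0 = i₀ → (∀ p : F.Ω → ℝ, IsLaw p → (∀ ω, 0 < p ω → A ω) →
        CH p b (Pool.K2S.ptq F (sg 0) q) ≤ Kv) →
      |(q : ℝ) - (P - g) * J| ≤ C * x * J → |((q + X : ℕ) : ℝ) - (P - g) * J| ≤ C * x * J →
      ∀ j : ℕ, (j + 1) * ⌊η * X⌋₊ ≤ X → ∀ E : F.Ω → Prop,
      ϖ ≤ Pe (Pool.Agent.H49.Ent.cond F.p A True) E →
      α / 4 * ⌊η * X⌋₊ * Real.log 2 ≤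
        CH (Pool.Agent.H49.Ent.cond (Pool.Agent.H49.Ent.cond F.p A True) E True)
          (Uni.dg ((j + 1) * ⌊η * X⌋₊) (Pool.S6N.om F sg q V H X a s t 0))
          (fun ω => (Uni.dg (j * ⌊η * X⌋₊) (Pool.S6N.om F sg q V H X a s t 0) ω, b ω))) := by
  have hl2 : 0 < Real.log 2 := Real.log_pos (by norm_num)
  have hα := hL.α0
  have hpos : ∀ (τ : ℝ) (J : ℕ) (F : Fam 3 J) (A : F.Ω → Prop), S.St τ J F A → 0 < Pe F.p A :=
    fun τ J F A hA => lt_of_lt_of_le (Real.exp_pos _) (hC.st τ J F A hA).2.2.2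
  have hlaw : Clp S (fun _ F A => 0 < Pe F.p A) :=
    Clp.of one_pos 0 fun J _ F A hA => hpos 1 J F A hA
  obtain ⟨δ, hδ, h⟩ := rpl_act_time hC hL (κ := η / 2) (half_pos hη) hϖ hC0 hlm
  refine ⟨δ, hδ, fun x hx hxδ => ?_⟩
  obtain ⟨J₁, hJ₁⟩ := exists_nat_gt (4 / (η * x) * (1 + |Kv| / (α / 4 * Real.log 2)))
  refine Clp.mono (J₂ := J₁) ((h x hx hxδ).and hlaw) ?_
  rintro J hJ F A ⟨hg, hPA⟩ X hX
  obtain ⟨h1, h2⟩ := hg X hX
  refine ⟨h1, ?_⟩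
  intro sg q V H a s t T b hsg hvis hq1 hq2 j hj E hE
  have hJr : 4 / (η * x) * (1 + |Kv| / (α / 4 * Real.log 2)) < J := hJ₁.trans_le (by exact_mod_cast hJ)
  have hηx : 0 < η * x := mul_pos hη hx
  have hK1 : 1 + |Kv| / (α / 4 * Real.log 2) ≤ η * X / 2 := by
    have h3 : 4 * (1 + |Kv| / (α / 4 * Real.log 2)) < η * x * J := by
      have h4 : 4 / (η * x) * (1 + |Kv| / (α / 4 * Real.log 2)) =
          4 * (1 + |Kv| / (α / 4 * Real.log 2)) / (η * x) := by ring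
      rw [h4, div_lt_iff₀ hηx] at hJr
      linarith
    have h5 : η * (x / 2 * J) ≤ η * X := mul_le_mul_of_nonneg_left hX hη.le
    linarith
  have hKa : 0 < α / 4 * Real.log 2 := by positivity
  have hK0 : 0 ≤ |Kv| / (α / 4 * Real.log 2) := div_nonneg (abs_nonneg _) hKa.le
  obtain ⟨Y, hY⟩ : ∃ Y, Y = ⌊η * (X : ℝ)⌋₊ := ⟨_, rfl⟩
  rw [← hY] at hj ⊢
  have hYf := Nat.lt_floor_add_one (η * (X : ℝ))
  rw [← hY] at hYf
  have hYκ : η / 2 * X ≤ Y := by linarith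
  have hYK : |Kv| / (α / 4 * Real.log 2) ≤ Y := by linarith
  rw [div_le_iff₀ hKa] at hYK
  -- the event
  have hl := isLaw_cond F.isLaw hPA
  have hPne : Pe F.p A ≠ 0 := hPA.ne'
  have hPE : ϖ * Pe F.p A ≤ Pe F.p (fun ω => A ω ∧ E ω) := by
    rw [Pool.K2S.Pe_cond E, le_div_iff₀ hPA] at hE
    exact hE
  have hE0 : 0 < Pe F.p (fun ω => A ω ∧ E ω) := lt_of_lt_of_le (mul_pos hϖ hPA) hPE
  have hlE := isLaw_cond F.isLaw hE0
  -- the levels
  have n1 : (j * Y : ℕ) ≤ X := by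
    have : j * Y ≤ (j + 1) * Y := Nat.mul_le_mul_right _ (Nat.le_succ _)
    omega
  have r1 : ((j * Y : ℕ) : ℝ) ≤ X := by exact_mod_cast n1
  have r2 : (((j + 1) * Y : ℕ) : ℝ) ≤ X := by exact_mod_cast hj
  have r3 : (0 : ℝ) ≤ ((j * Y : ℕ) : ℝ) := Nat.cast_nonneg _
  have r4 : (0 : ℝ) ≤ (((j + 1) * Y : ℕ) : ℝ) := Nat.cast_nonneg _
  rw [abs_le] at hq1 hq2
  have c2 : ((q + X : ℕ) : ℝ) = (q : ℝ) + X := by push_cast; ring
  rw [c2] at hq2
  have e1 : j * Y + Y = (j + 1) * Y := by ring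
  have key := h2 (q + j * Y) Y hYκ (by
      rw [abs_le]
      push_cast
      push_cast at r1 r3
      constructor <;> linarith [hq1.1, hq1.2, hq2.1, hq2.2]) (by
      rw [add_assoc, e1, abs_le]
      push_cast
      push_cast at r2 r4
      constructor <;> linarith [hq1.1, hq1.2, hq2.1, hq2.2])
    (fun ω => A ω ∧ E ω) (fun ω hω => hω.1) hPE
  rw [add_assoc, e1, ← hsg] at key
  rw [cond_and14 F.p hPne]
  have hpA : ∀ ω, 0 < Pool.Agent.H49.Ent.cond F.p (fun ω => A ω ∧ E ω) True ω → A ω :=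
    fun ω hω => (of_eq_true ((cond_pos_iff F.isLaw.nonneg (fun ω => A ω ∧ E ω) True ω).1 hω).2).1
  have k1 := CH_om_ge F hlE sg a s t (V := V) (H := H) (n := j * Y) (n' := (j + 1) * Y)
    (by omega) hj b (hvis _ hlE hpA)
  have k2 : Kv ≤ |Kv| := le_abs_self _
  have k3 : α / 2 * Y * Real.log 2 = α / 4 * Y * Real.log 2 + Y * (α / 4 * Real.log 2) := by ring
  linarith

end Pool.S6C
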