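import Pool.Agent.H14.S6H.ActO
import Pool.Agent.H19.S6H.Frm
import Pool.Agent.H88.S6F.Vs

/-!
# The plateau of `R - varpi`: the velocity is active in the contexts, on large events (piece C)
-/

set_option autoImplicit false

namespace Pool.S6C

open Finset Real
open Pool.Agent.H49.Ent Pool.Agent.H32.Dense Pool.STK Pool.KA Pool.KSAT Pool.K2S Pool.PB Pool.KS6
  Pool.Sel51 Pool.FALL

section fam

variable {J : ℕ} {F : Fam 3 J} {A : F.Ω → Prop} {σ : Fin 3 → Fin 3}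
  {N w₀ Δ r V₀ H X Va Rt Pu PN : ℕ} {a t : ℕ → F.Ω → ℝ} {s a' t' al nu kk bb : F.Ω → ℝ}

/-- The frames on a smaller event. -/
theorem FFr.sub14 (h : FFr F A σ N w₀ Δ r V₀ H X Va Rt Pu PN a t s a' t' al nu kk bb)
    {E : F.Ω → Prop} (hE : Sub E A) :
    FFr F E σ N w₀ Δ r V₀ H X Va Rt Pu PN a t s a' t' al nu kk bb :=
  ⟨h.bij, h.fn, h.ga, h.gti, fun i hi ω hω => h.ca i hi ω (hE ω hω),
    fun i hi ω hω => h.ct i hi ω (hE ω hω), h.va', h.rt', h.ga', h.gt',
    fun ω hω => h.bd ω (hE ω hω), fun ω ω' hω hω' => h.fp ω ω' (hE ω hω) (hE ω' hω'),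
    fun ω hω => h.on1 ω (hE ω hω), fun ω hω => h.on2 ω (hE ω hω),
    fun ω hω => h.an1 ω (hE ω hω), fun ω hω => h.an2 ω (hE ω hω)⟩

/-- The frames of the plateau are frames of the falling case. -/
theorem HFr.ffr14 (h : Pool.S6HF.HFr F A σ N w₀ Δ r V₀ H X Va Rt Pu PN a t s a' t' al nu kk bb) :
    FFr F A σ N w₀ Δ r V₀ H X Va Rt Pu PN a t s a' t' al nu kk bb :=
  ⟨h.bij, h.fn, h.ga, h.gti, h.ca, h.ct, by have := h.va'; omega, h.rt', h.ga', h.gt', h.bd, h.fp,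
    h.on1, h.on2, fun ω hω => (h.an1 ω hω).trans (div_le_div_of_nonneg_left (by norm_num)
      (by positivity) (pow_le_pow_right₀ (by norm_num) (by omega))), h.an2⟩

end fam

/-- The activity between two integer levels, given the exact point, for one law. -/
theorem act_pq14 {J : ℕ} {F : Fam 3 J} {A : F.Ω → Prop} {i₀ : Fin 3} {act : ℚ → ℝ} {h : ℝ}
    (hl : IsLaw (Pool.Agent.H49.Ent.cond F.p A True))
    (hg : ∀ a : ℕ, a ≤ J →
      |CH (Pool.Agent.H49.Ent.cond F.p A True) (fun ω => F.D a ω i₀) (Fam.pt F) -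
        act ((a : ℚ) / J) * Real.log 2 * J| ≤ h * J) {q X : ℕ} (hq : q + X ≤ J) :
    (act (((q + X : ℕ) : ℚ) / J) - act ((q : ℚ) / J)) * Real.log 2 * J - 2 * h * J ≤
      CH (Pool.Agent.H49.Ent.cond F.p A True) (fun ω => F.D (q + X) ω i₀)
        (fun ω => (F.D q ω i₀, Fam.pt F ω)) := by
  rw [CHD_block F hl.nonneg q X i₀]
  have g1 := hg q (by omega)
  have g2 := hg (q + X) hq
  rw [abs_le] at g1 g2
  nlinarith only [g1, g2, g1.2, g2.1]

/-- **(C)** -/
theorem hact_thm : HActStmt := by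
  intro S a₁ R₁ h₁ i₀ c s₂ r' D σ hC act rc v₁ t₁ e₁ pe P g wr v₀ v a₀ α L e G hA hmono hlip hZ N
    ul us ca η ϖ x hca0 hca hη hη1 hϖ hx hxL hex
  have hl2 : 0 < Real.log 2 := Real.log_pos (by norm_num)
  have hpos : ∀ (τ : ℝ) (J : ℕ) (F : Fam 3 J) (A : F.Ω → Prop), S.St τ J F A → 0 < Pe F.p A :=
    fun τ J F A hA => lt_of_lt_of_le (Real.exp_pos _) (hC.st τ J F A hA).2.2.2
  have hα := hZ.α0
  have hv := hZ.v0
  have he := hZ.e0
  obtain ⟨β, hβ⟩ : ∃ β, β = (α - ca) * η * x := ⟨_, rfl⟩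
  have hac : 0 < α - ca := by linarith only [hca]
  have hβ0 : 0 < β := by
    rw [hβ]
    positivity
  rw [← hβ] at hex
  have hh : 0 < β * Real.log 2 / 8 := by positivity
  have h1 := (act_int hpos hA hmono hlip (h := β * Real.log 2 / 8) hh).ev hϖ
  have hlaw : Clp S (fun _ F A => 0 < Pe F.p A) :=
    Clp.of one_pos 0 fun J _ F A hA => hpos 1 J F A hA
  obtain ⟨J₁, hJ₁⟩ := exists_nat_gt ((2 * (α - ca) * Real.log 2 + |cvis|) / (β * Real.log 2 / 2))
  refine Clp.mono (J₂ := max J₁ 1) (hlaw.and h1) ?_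
  rintro J hJ F A ⟨hPA, hg⟩ w₀ Δ r V₀ H X Va Rt sg a t s a' t' al nu kk bb hsg hV hXx hFr i hi q
    hq j hj E hE
  have hJ1 : J₁ ≤ J := (le_max_left _ _).trans hJ
  have hJ2 : 1 ≤ J := (le_max_right _ _).trans hJ
  have hJ0 : (0 : ℝ) < J := by exact_mod_cast hJ2
  have hKJ : 2 * (α - ca) * Real.log 2 + |cvis| ≤ β * Real.log 2 / 2 * J := by
    have h2 : (2 * (α - ca) * Real.log 2 + |cvis|) / (β * Real.log 2 / 2) < J :=
      hJ₁.trans_le (by exact_mod_cast hJ1)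
    rw [div_lt_iff₀ (by positivity)] at h2
    linarith only [h2]
  -- the event
  have hPne : Pe F.p A ≠ 0 := hPA.ne'
  have hPE : ϖ * Pe F.p A ≤ Pe F.p (fun ω => A ω ∧ E ω) := by
    rw [Pool.K2S.Pe_cond E, le_div_iff₀ hPA] at hE
    exact hE
  have hE0 : 0 < Pe F.p (fun ω => A ω ∧ E ω) := lt_of_lt_of_le (mul_pos hϖ hPA) hPE
  have hlE := isLaw_cond F.isLaw hE0
  have hEA : Sub (fun ω => A ω ∧ E ω) A := fun ω hω => hω.1
  have hgE := hg (fun ω => A ω ∧ E ω) hEA hPE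
  rw [cond_and14 F.p hPne]
  -- the levels
  obtain ⟨Y, hY⟩ : ∃ Y, Y = ⌊η * (X : ℝ)⌋₊ := ⟨_, rfl⟩
  rw [← hY] at hj ⊢
  have hX0 : (0 : ℝ) ≤ X := Nat.cast_nonneg _
  have hXu : (X : ℝ) ≤ x * J := by
    rw [hXx]
    exact Nat.floor_le (by positivity)
  have hXl : x * J - 1 < X := by
    rw [hXx]
    linarith only [Nat.lt_floor_add_one (x * (J : ℝ))]
  have hYl : η * X - 1 < Y := by
    rw [hY]
    linarith only [Nat.lt_floor_add_one (η * (X : ℝ))]
  have hYl' : η * x * J - 2 ≤ Y := by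
    have h2 : η * (x * J - 1) ≤ η * X := mul_le_mul_of_nonneg_left hXl.le hη.le
    have h3 : η * (x * J - 1) = η * x * J - η := by ring
    linarith only [hη1, hYl, h2]
  have hL0 : 0 < L := by linarith only [hx, hxL, hZ.eL, hZ.e0]
  have hxJL : x * J ≤ L / 4 * J := mul_le_mul_of_nonneg_right hxL hJ0.le
  have hLJ : 0 < L * J := mul_pos hL0 hJ0
  have hvLJ : 0 < v * (L * J) := mul_pos hv hLJ
  have heJ : 0 < e * J := mul_pos he hJ0
  have hG : 10 * (L * J) + 4 * (v * (L * J)) ≤ G * J := by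
    have h5 := mul_le_mul_of_nonneg_right hZ.LG hJ0.le
    linarith only [h5, h5, (by ring : (10 + 4 * v) * L * (J : ℝ) = 10 * (L * J) + 4 * (v * (L * J)))]
  rw [abs_le] at hq
  have hqu : (q : ℝ) ≤ (P - g) * J + L / 2 * J := by linarith only [hq, hq.2]
  have hql : (P - g) * J - L / 2 * J ≤ q := by linarith only [hq, hq.1]
  -- windows
  have hwN : v * (((w₀ + N * Δ : ℕ) : ℝ) - wr * J) ≤ v * (L / 2 * J) := by
    refine mul_le_mul_of_nonneg_left ?_ hv.le
    have h2 := hV.zu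
    have h3 : (wr + L / 2) * (J : ℝ) = wr * J + L / 2 * J := by ring
    linarith only [h2]
  have hiN : ((w₀ + i * Δ : ℕ) : ℝ) ≤ wr * J + L / 2 * J := by
    have h2 : w₀ + i * Δ ≤ w₀ + N * Δ := by
      have := Nat.mul_le_mul_right Δ hi
      omega
    have h3 : ((w₀ + i * Δ : ℕ) : ℝ) ≤ ((w₀ + N * Δ : ℕ) : ℝ) := by exact_mod_cast h2
    have h4 := hV.zu
    have h5 : (wr + L / 2) * (J : ℝ) = wr * J + L / 2 * J := by ring
    linarith only [h3, h4]
  have hwi : v * (((w₀ + i * Δ : ℕ) : ℝ) - wr * J) ≤ v * (L / 2 * J) := by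
    refine mul_le_mul_of_nonneg_left ?_ hv.le
    linarith only [hiN]
  have hGJ0 : 0 ≤ G * J := by linarith only [hLJ, hvLJ, hG]
  have hPu : q + fv V₀ r N ≤ hPu pe G J := by
    refine Nat.le_floor ?_
    have h2 := hV.vt N le_rfl
    have h3 := mul_le_mul_of_nonneg_right hZ.gp1.le hJ0.le
    have h4 : ((q + fv V₀ r N : ℕ) : ℝ) = (q : ℝ) + ((V₀ + N * r : ℕ) : ℝ) := by
      unfold fv
      push_cast
      ring
    rw [h4]
    have h5 : (P - g + v₀ + G) * (J : ℝ) = (P - g) * J + v₀ * J + G * J := by ring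
    have h6 : 20 * e * (J : ℝ) = 20 * (e * J) := by ring
    have h7 : (pe + G / 2) * (J : ℝ) = pe * J + G * J / 2 := by ring
    linarith only [hq, hLJ, hvLJ, heJ, hG, hwN, h2, h3]
  have hPN : q + (fv V₀ r N + H) ≤ hPN P wr G J := by
    refine Nat.le_floor ?_
    have h2 := hV.rt N le_rfl
    have h4 : ((q + (fv V₀ r N + H) : ℕ) : ℝ) = (q : ℝ) + ((V₀ + N * r + H : ℕ) : ℝ) := by
      unfold fv
      push_cast
      ring
    rw [h4]
    have h5 : (P - wr + G / 2) * (J : ℝ) = (P - g) * J + (g - wr) * J + G * J / 2 := by ring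
    have h6 : 20 * e * (J : ℝ) = 20 * (e * J) := by ring
    linarith only [hq, hLJ, hvLJ, heJ, hG, hwN, h2]
  have hgJ : q + (fv V₀ r i + H) + fw w₀ Δ i ≤ J := by
    have h2 := hV.rt i hi
    have h3 := mul_le_mul_of_nonneg_right hZ.g7.le hJ0.le
    have h4 : ((q + (fv V₀ r i + H) + fw w₀ Δ i : ℕ) : ℝ) =
        (q : ℝ) + ((V₀ + i * r + H : ℕ) : ℝ) + ((w₀ + i * Δ : ℕ) : ℝ) := by
      unfold fv fw
      push_cast
      ring
    have h5 : ((q + (fv V₀ r i + H) + fw w₀ Δ i : ℕ) : ℝ) ≤ J := by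
      rw [h4]
      have h6 : 20 * e * (J : ℝ) = 20 * (e * J) := by ring
      have h7 : (P + G) * (J : ℝ) = (P - g) * J + (g - wr) * J + wr * J + G * J := by ring
      linarith only [hq, hLJ, hvLJ, heJ, hG, hiN, hwi, h2, h3]
    exact_mod_cast h5
  -- visibility
  have hF := (HFr.ffr14 hFr).sub14 hEA
  have hvis := hF.ctx_vis hi hPu hPN hlE hgJ
  have hvis' : CH (Pool.Agent.H49.Ent.cond F.p (fun ω => A ω ∧ E ω) True)
      (Pool.S6N.ctx F sg (fw w₀ Δ i) q (fv V₀ r i) H (a i) s (t i))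
      (Pool.K2S.ptq F (sg 0) q) ≤ cvis := by
    refine le_trans ?_ hvis
    refine le_trans (CH_mono_left hlE.nonneg (X' := fun ω =>
      (Pool.S6N.ctx F sg (fw w₀ Δ i) q (fv V₀ r i) H (a i) s (t i) ω,
        Pool.S6N.gt F a' s t' ω)) fun ω ω' _ _ hh => ?_) (CH_mono_cond hlE.nonneg
      fun ω ω' _ _ hh => ?_)
    · exact (Prod.ext_iff.mp (Prod.ext_iff.mp hh).1).1
    · have e1 := Prod.ext_iff.mp hh
      exact Prod.ext e1.2 e1.1
  -- the block
  have e1 : j * Y + Y = (j + 1) * Y := by ring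
  have r1 : ((j * Y : ℕ) : ℝ) + Y ≤ X := by
    have : ((j * Y + Y : ℕ) : ℝ) ≤ X := by
      rw [e1]
      exact_mod_cast hj
    rwa [Nat.cast_add] at this
  have r3 : (0 : ℝ) ≤ ((j * Y : ℕ) : ℝ) := Nat.cast_nonneg _
  have r4 : (0 : ℝ) ≤ (Y : ℝ) := Nat.cast_nonneg _
  have hXn : q + j * Y + Y ≤ J := by
    have g2 := mul_le_mul_of_nonneg_right hZ.g2.le hJ0.le
    have g10 := mul_le_mul_of_nonneg_right hZ.g10.le hJ0.le
    have h2 : ((q + j * Y + Y : ℕ) : ℝ) ≤ J := by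
      rw [Nat.cast_add, Nat.cast_add]
      have h3 : (P - g + v₀ + G) * (J : ℝ) = (P - g) * J + v₀ * J + G * J := by ring
      linarith only [hq, hXu, hxJL, hLJ, hvLJ, hG, r1, g2, g10]
    exact_mod_cast h2
  have k1 := act_pq14 hlE hgE hXn
  have k2 := CH_om_ge F hlE sg (a i) s (t i) (V := fv V₀ r i) (H := H) (X := X) (n := j * Y)
    (n' := (j + 1) * Y) (Nat.mul_le_mul_right _ (Nat.le_succ _)) hj _ hvis'
  rw [hsg, ← e1, ← add_assoc] at k2
  rw [← e1]
  -- the slope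
  have hact : ∀ n : ℕ, (P - g) * J - L * J ≤ n → (n : ℝ) ≤ (P - g) * J + L * J →
      |act ((n : ℚ) / J) - a₀ - α * ((n : ℝ) / J - (P - g))| ≤ e := by
    intro n hn1 hn2
    have e2 : (((n : ℚ) / J : ℚ) : ℝ) = (n : ℝ) / J := by push_cast; rfl
    have h2 := hZ.act ((n : ℚ) / J) (by
      rw [e2]
      have e3 : (n : ℝ) / J - (P - g) = (n - (P - g) * J) / J := by field_simp
      rw [e3, abs_div, abs_of_pos hJ0, div_le_iff₀ hJ0, abs_le]
      constructor <;> linarith)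
    rw [e2] at h2
    exact h2
  have m1 := hact (q + j * Y) (by rw [Nat.cast_add]; linarith only [hq, hLJ]) (by rw [Nat.cast_add]; linarith only [hq, hXu, hxJL, hLJ, r1])
  have m2 := hact (q + j * Y + Y) (by rw [Nat.cast_add, Nat.cast_add]; linarith only [hq, hLJ])
    (by rw [Nat.cast_add, Nat.cast_add]; linarith only [hq, hXu, hxJL, hLJ, r1])
  rw [abs_le] at m1 m2
  have e4 : ((q + j * Y + Y : ℕ) : ℝ) / J = ((q + j * Y : ℕ) : ℝ) / J + Y / J := by
    rw [Nat.cast_add (q + j * Y) Y, add_div]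
  rw [e4] at m2
  have m3 : α * (Y / J) - 2 * e ≤
      act (((q + j * Y + Y : ℕ) : ℚ) / J) - act (((q + j * Y : ℕ) : ℚ) / J) := by
    linarith only [m1, m2, m1.2, m2.1]
  have hlJ : 0 < Real.log 2 * J := by positivity
  have m4 := mul_le_mul_of_nonneg_right m3 hlJ.le
  have e5 : (α * (Y / J) - 2 * e) * (Real.log 2 * J) = (α * Y - 2 * (e * J)) * Real.log 2 := by
    field_simp
  rw [e5] at m4
  have m5 : 16 * (e * J) ≤ β * J := by
    have h2 := mul_le_mul_of_nonneg_right hex hJ0.le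
    linarith only [h2]
  have m6 := mul_le_mul_of_nonneg_right m5 hl2.le
  have m7 : β * J - 2 * (α - ca) ≤ (α - ca) * Y := by
    have h2 := mul_le_mul_of_nonneg_left hYl' hac.le
    have h3 : (α - ca) * (η * x * J - 2) = β * J - 2 * (α - ca) := by
      rw [hβ]
      ring
    linarith only [h2, h3]
  have m8 := mul_le_mul_of_nonneg_right m7 hl2.le
  have m9 : 0 < β * J * Real.log 2 := by positivity
  have m10 := le_abs_self cvis
  refine le_trans ?_ k2
  have e6 : (act (((q + j * Y + Y : ℕ) : ℚ) / J) - act (((q + j * Y : ℕ) : ℚ) / J)) *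
      Real.log 2 * J = (act (((q + j * Y + Y : ℕ) : ℚ) / J) - act (((q + j * Y : ℕ) : ℚ) / J)) *
      (Real.log 2 * J) := by ring
  rw [e6] at k1
  have e7 : (α * Y - 2 * (e * J)) * Real.log 2 = ca * Y * Real.log 2 +
      (α - ca) * Y * Real.log 2 - 2 * (e * J) * Real.log 2 := by ring
  have e8 : 16 * (e * J) * Real.log 2 = 8 * (2 * (e * J) * Real.log 2) := by ring
  have e9 : (β * J - 2 * (α - ca)) * Real.log 2 =
      β * J * Real.log 2 - 2 * (α - ca) * Real.log 2 := by ring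
  have e10 : 2 * (β * Real.log 2 / 8) * J = β * J * Real.log 2 / 4 := by ring
  have e11 : β * Real.log 2 / 2 * J = β * J * Real.log 2 / 2 := by ring
  rw [e10] at k1
  rw [e11] at hKJ
  linarith only [hKJ, k1, m4, m6, m8, m9, m10]

end Pool.S6C
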